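import Pool.Agent.Q23.PP.Small

/-!
# Project PP: the assembly
-/

set_option autoImplicit false

open scoped Matrix

namespace Pool.Agent.Q23.PP

open Pool.Agent.H919R4.ZS (FinRes toRed RedC augm)
open Pool.Agent.TH38.CX (Res ExR PM Triv sumMap Bdd)
open Pool.Agent.TH38.ZT (ExAt exAt_iff ex_indep)

noncomputable section

variable {G : Type} [Group G]

theorem exAt_of_not {X : FinRes G} (h : ¬ ∃ j, Nontrivial (X.homology (toRed G) j)) (j : ℕ) :
    ExAt X (toRed G) j := by
  rw [exAt_iff, ← not_nontrivial_iff_subsingleton]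
  exact fun h' => h ⟨j, h'⟩

theorem not_of_exAt {X : FinRes G} (h : ∀ j, ExAt X (toRed G) j) (j : ℕ) :
    ¬ Nontrivial (X.homology (toRed G) j) := by
  rw [not_nontrivial_iff_subsingleton, ← exAt_iff]
  exact h j

/-- the passage from the subgroups to the group -/
theorem pairCore (htau : S_tau) (hd1 : S_dual1) (hd2 : S_dual2) (hperm : S_perm) (hcone : S_cone)
    {k : ℕ} (P : PDPair G k) (a : Fin P.c) (i : ℕ)
    (h : Nontrivial ((P.Y a).homology (toRed (P.H a)) i)) (X' : FinRes G) :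
    ∃ j, Nontrivial (X'.homology (toRed G) j) := by
  by_contra hcon
  have hX : ∀ j, ExAt P.X (toRed G) j := fun j =>
    ex_indep X' P.X (toRed G) j (exAt_of_not hcon j)
  obtain ⟨τ, t1, t2, t3⟩ := htau G P.w
  obtain ⟨R', q, hq⟩ := hd1 G P.X k P.n_eq_zero P.coh P.w (Comp P.H) P.ev P.top
  have hR' := hd2 G P.X k P.n_eq_zero P.w _ R' q hq (RedC G) (toRed G) τ t1 t2 t3 hX
  obtain ⟨R, hb, hR⟩ := hperm G P.c P.H P.Y
  haveI : Nonempty (Comp P.H) := ⟨⟨a, ((1 : G) : G ⧸ P.H a)⟩⟩
  have hR2 := hcone G P.X (Comp P.H) R' R ⟨k + 1, fun l hl => hq.empty l hl⟩ hb (RedC G) (toRed G)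
    hX hR'
  exact not_of_exAt (hR hR2 a) i h

theorem le_of_sumSub {ι : Type} {A : ι → Type} [∀ i, AddCommGroup (A i)]
    (Z B : ∀ i, AddSubgroup (A i)) (h : sumSub Z ≤ sumSub B) (i : ι) : Z i ≤ B i := by
  classical
  intro x hx
  have h1 : DFinsupp.single i x ∈ sumSub Z := by
    intro j
    by_cases hj : j = i
    · subst hj
      rw [DFinsupp.single_eq_same]
      exact hx
    · rw [DFinsupp.single_eq_of_ne hj]
      exact (Z j).zero_mem
  have h2 := h h1 i
  rwa [DFinsupp.single_eq_same] at h2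

/-- compact aspherical four-manifolds with boundary -/
theorem fourCore (htau : S_tau) (hd1 : S_dual1) (hd2 : S_dual2) (hperm : S_perm) (hcone : S_cone)
    (M : AsphericalFour G) (X' : FinRes G) : ∃ j, Nontrivial (X'.homology (toRed G) j) := by
  by_cases hlow : ∃ k ≤ 2, Nontrivial (M.X.cohomology k)
  · obtain ⟨k, hk, hn⟩ := hlow
    obtain ⟨i, hi⟩ := low M.X k hk hn
    by_contra hcon
    exact not_of_exAt (fun j => ex_indep X' M.X (toRed G) j (exAt_of_not hcon j)) i hi
  · have hc : ∀ k ≤ 2, Subsingleton (M.X.cohomology k) := by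
      intro k hk
      rw [← not_nontrivial_iff_subsingleton]
      exact fun h => hlow ⟨k, hk, h⟩
    have hN : ∀ a, ∀ j ≤ 2, (M.N a).cyc j ≤ (M.N a).bds j := by
      intro a j hj
      refine le_of_sumSub (fun e : Comp M.H => (M.N e.1).cyc j) (fun e => (M.N e.1).bds j) ?_
        ⟨a, ((1 : G) : G ⧸ M.H a)⟩
      rw [← (M.ld (2 - j) j (by omega)).sub]
      have h := hc (2 - j) (by omega)
      rwa [QuotientAddGroup.subsingleton_iff, AddSubgroup.addSubgroupOf_eq_top] at h
    let P : PDPair G 2 :=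
      { X := M.X
        n_eq_zero := M.n_eq_zero
        coh := hc
        w := M.w
        c := M.c
        H := M.H
        Y := fun a => toRes (M.N a) (hN a)
        ev := M.ev
        top := M.top }
    let a : Fin M.c := ⟨0, M.c_pos⟩
    have h0 : Subsingleton ((toRes (M.N a) (hN a)).cohomology 0) := by
      rw [QuotientAddGroup.subsingleton_iff, AddSubgroup.addSubgroupOf_eq_top]
      exact ((M.pd a).pd 0 2 rfl).sub.2 (hN a 2 le_rfl)
    have h3 : Nonempty ((toRes (M.N a) (hN a)).cohomology 3 ≃+ ℤ) := by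
      obtain ⟨f⟩ := (M.pd a).pd3
      exact ⟨f.trans ((QuotientAddGroup.quotientAddEquivOfEq
        (AddSubgroup.bot_addSubgroupOf ⊤)).trans
          (QuotientAddGroup.quotientBot.trans AddSubgroup.topEquiv))⟩
    obtain ⟨i, hi⟩ := pd3 (M.H a) (toRes (M.N a) (hN a)) le_rfl h0 h3
    exact pairCore htau hd1 hd2 hperm hcone P a i hi X'

end

end Pool.Agent.Q23.PP
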