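import Pool.Agent.TH38.CX.Main
import Pool.Agent.Q169.PT.Dual

/-!
# Project PP: definitions

Poincare duality pairs and compact aspherical four-manifolds with boundary, in terms of chain
complexes over integral group rings.
-/

set_option autoImplicit false

open scoped Matrix

namespace Pool.Agent.Q23.PP

open Pool.Agent.H919R4.ZS (FinRes toRed RedC augm)
open Pool.Agent.TH38.CX (Res ExR PM Triv sumMap Bdd)
open Pool.Agent.TH38.ZT (ExAt)

noncomputable section

/-- The groups `Z / B` and `Z' / B'` are isomorphic, for subgroups `Z`, `B` of `A` and `Z'`, `B'` of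
`A'`. -/
def QuotIso {A A' : Type} [AddCommGroup A] [AddCommGroup A'] (Z B : AddSubgroup A)
    (Z' B' : AddSubgroup A') : Prop :=
  Nonempty (Z ⧸ B.addSubgroupOf Z ≃+ Z' ⧸ B'.addSubgroupOf Z')

/-- A complex `ℤ[K]^(n 3) → ℤ[K]^(n 2) → ℤ[K]^(n 1) → ℤ[K]^(n 0)` (row vectors, `x ↦ x · d i`) whose
homology of degree `0` is `ℤ`, with the augmentation `x ↦ ∑ j, (augm (x j)) * aug j`. The cellular
chain complex of a connected covering `N'` of a closed `3`-manifold `N` with the group `K` of deck
transformations is of this form; it need not be acyclic in positive degrees. -/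
structure FCx (K : Type) [Group K] where
  /-- the ranks of the free modules -/
  n : ℕ → ℕ
  /-- the matrices of the differentials -/
  d : ∀ i, Matrix (Fin (n (i + 1))) (Fin (n i)) (MonoidAlgebra ℤ K)
  /-- the values of the augmentation on the basis -/
  aug : Fin (n 0) → ℤ
  /-- the modules vanish beyond degree three -/
  n_eq_zero : ∀ i, 3 < i → n i = 0
  /-- it is a complex -/
  d_mul_d : ∀ i, d (i + 1) * d i = 0
  /-- the augmentation is surjective -/
  surj : ∃ x : Fin (n 0) → MonoidAlgebra ℤ K, ∑ j, augm K (x j) * aug j = 1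
  /-- the homology of degree `0` is `ℤ` -/
  exact_zero : ∀ x : Fin (n 0) → MonoidAlgebra ℤ K,
    ∑ j, augm K (x j) * aug j = 0 ↔ ∃ y, y ᵥ* d 0 = x

namespace FCx

variable {K : Type} [Group K] (Y : FCx K)

/-- the module of the chains of degree `i`, row vectors, and of the cochains of degree `i` with
coefficients in `ℤ[K]`, column vectors -/
def Ch (i : ℕ) : Type := Fin (Y.n i) → MonoidAlgebra ℤ K

instance (i : ℕ) : AddCommGroup (Y.Ch i) :=
  inferInstanceAs (AddCommGroup (Fin (Y.n i) → MonoidAlgebra ℤ K))

/-- the differential `x ↦ x · d i` -/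
def bd (i : ℕ) : Y.Ch (i + 1) →+ Y.Ch i where
  toFun x := Matrix.vecMul x (Y.d i)
  map_zero' := Matrix.zero_vecMul _
  map_add' := Matrix.add_vecMul _

/-- the cycles of degree `i + 1` -/
def cyc (i : ℕ) : AddSubgroup (Y.Ch (i + 1)) := (Y.bd i).ker

/-- the boundaries of degree `i + 1` -/
def bds (i : ℕ) : AddSubgroup (Y.Ch (i + 1)) := (Y.bd (i + 1)).range

/-- the coboundary `y ↦ d i · y` -/
def cobd (i : ℕ) : Y.Ch i →+ Y.Ch (i + 1) where
  toFun y := Matrix.mulVec (Y.d i) y
  map_zero' := Matrix.mulVec_zero _
  map_add' := Matrix.mulVec_add _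

/-- the cocycles of degree `i` -/
def cocyc (i : ℕ) : AddSubgroup (Y.Ch i) := (Y.cobd i).ker

/-- the coboundaries of degree `i` -/
def coboundaries : ∀ i : ℕ, AddSubgroup (Y.Ch i)
  | 0 => ⊥
  | i + 1 => (Y.cobd i).range

end FCx

/-- The set of the components of the boundary `∂M̃` of the universal covering: the boundary
components of `M` are `N_a`, `a < c`, and `H a` is the stabiliser in `G = π₁(M)` of a component of
`∂M̃` over `N_a`. -/
abbrev Comp {G : Type} [Group G] {c : ℕ} (H : Fin c → Subgroup G) : Type := Σ a : Fin c, G ⧸ H a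

/-- The duality isomorphism in the top degree: `ev` induces an isomorphism of the cokernel
`H^(k+1)(G; ℤ[G])` of the coboundary `z ↦ X.d k · z` with the kernel of the augmentation
`ℤ[E] → ℤ` of a permutation module, and it is equivariant for the right action of `G` on cochains
and the action of `G` on `ℤ[E]`, twisted by `w : G → {1, -1}` and turned into a right action by
inversion. -/
structure IsTop {G : Type} [Group G] (X : FinRes G) (k : ℕ) (w : G →* ℤˣ) {E : Type} [MulAction G E]
    (ev : (Fin (X.n (k + 1)) → MonoidAlgebra ℤ G) →+ (E →₀ ℤ)) : Prop where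
  /-- the kernel -/
  ker : ∀ y, ev y = 0 ↔ ∃ z, X.d k *ᵥ z = y
  /-- the image -/
  range : ∀ v : E →₀ ℤ, (v.sum fun _ r => r) = 0 ↔ ∃ y, ev y = v
  /-- equivariance -/
  smul : ∀ y g, ev (fun j => y j * MonoidAlgebra.single g 1) =
    (w g : ℤ) • (ev y).mapDomain fun e => g⁻¹ • e

/-- A group `G` with a family of subgroups `H a`, `a < c`, which is a Poincare duality pair of
dimension `k + 2` (Bieri, Eckmann), with finite free resolutions of all groups:
`H^i(G; ℤ[G]) = 0` for `i ≠ k + 1`, and `H^(k+1)(G; ℤ[G])` is, up to the twist by the orientation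
character `w`, the kernel of `⨁_a ℤ[G ⧸ H a] → ℤ`. For example `G = π₁(M)` and `H a = π₁(N_a)` for a
compact aspherical `(k + 2)`-manifold `M` with aspherical boundary components `N_a` whose
fundamental groups inject into `π₁(M)`. -/
structure PDPair (G : Type) [Group G] (k : ℕ) where
  /-- a finite free resolution of `ℤ` over `ℤ[G]` -/
  X : FinRes G
  /-- its length is at most `k + 1` -/
  n_eq_zero : ∀ i, k + 1 < i → X.n i = 0
  /-- `H^i(G; ℤ[G]) = 0` for `i ≤ k` -/
  coh : ∀ i ≤ k, Subsingleton (X.cohomology i)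
  /-- the orientation character -/
  w : G →* ℤˣ
  /-- the number of subgroups -/
  c : ℕ
  /-- the subgroups -/
  H : Fin c → Subgroup G
  /-- finite free resolutions for the subgroups -/
  Y : ∀ a, FinRes (H a)
  /-- the duality isomorphism -/
  ev : (Fin (X.n (k + 1)) → MonoidAlgebra ℤ G) →+ (Comp H →₀ ℤ)
  /-- it is one -/
  top : IsTop X k w ev

/-- Poincare duality for the covering `N'` with the group `K` of a closed `3`-manifold `N`, with the
cellular chain complex `Y` of `N'`. -/
structure FCx.IsPD {K : Type} [Group K] (Y : FCx K) : Prop where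
  /-- `H^i(N; ℤ[K]) = H_(3-i)(N')` for `i = 0, 1, 2`, with `3 - i = j + 1` -/
  pd : ∀ i j, i + j = 2 → QuotIso (Y.cocyc i) (Y.coboundaries i) (Y.cyc j) (Y.bds j)
  /-- `H^3(N; ℤ[K]) = H_0(N') = ℤ` -/
  pd3 : QuotIso (Y.cocyc 3) (Y.coboundaries 3) (⊤ : AddSubgroup ℤ) ⊥

/-- The direct sum of subgroups `Z i` of the groups `A i`, a subgroup of the direct sum of the
groups `A i`. -/
def sumSub {ι : Type} {A : ι → Type} [∀ i, AddCommGroup (A i)] (Z : ∀ i, AddSubgroup (A i)) :
    AddSubgroup (Π₀ i, A i) where
  carrier := {x | ∀ i, x i ∈ Z i}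
  zero_mem' i := (Z i).zero_mem
  add_mem' hx hy i := (Z i).add_mem (hx i) (hy i)
  neg_mem' hx i := (Z i).neg_mem (hx i)

/-- Lefschetz duality `H^i(M; ℤ[G]) = H_(4-i)(M̃, ∂M̃) = H_(3-i)(∂M̃)`, `i = 0, 1, 2`, with
`3 - i = j + 1`, for a compact aspherical `4`-manifold `M`: `X` is a resolution for `G = π₁(M)`. The
component `e` of `∂M̃` over `N_a`, `a = e.1`, has the chain complex `N a`, and the chain complex
of `∂M̃` is the direct sum of these complexes. -/
def IsLefschetz {G : Type} [Group G] (X : FinRes G) {c : ℕ} {H : Fin c → Subgroup G}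
    (N : ∀ a, FCx (H a)) : Prop :=
  ∀ i j, i + j = 2 → QuotIso (X.cobd i).ker (X.coboundaries i)
    (sumSub fun e : Comp H => (N e.1).cyc j) (sumSub fun e : Comp H => (N e.1).bds j)

/-- The chain complexes of a compact connected aspherical `4`-manifold `M` with non-empty boundary,
`π₁(M) = G`, and the isomorphisms of Poincare and Lefschetz duality. The boundary components `N_a`,
`a < c`, are arbitrary closed `3`-manifolds; `H a` is the stabiliser in `G` of a component `N_a'` of
`∂M̃` over `N_a` (the image of `π₁(N_a)` in `G`). -/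
structure AsphericalFour (G : Type) [Group G] where
  /-- the cellular chain complex of the universal covering of a finite complex of dimension three
  which is homotopy equivalent to `M` (a spine of `M`) -/
  X : FinRes G
  /-- the dimension is at most three -/
  n_eq_zero : ∀ i, 3 < i → X.n i = 0
  /-- the orientation character -/
  w : G →* ℤˣ
  /-- the number of boundary components -/
  c : ℕ
  /-- the boundary is not empty -/
  c_pos : 0 < c
  /-- the stabilisers of the components of `∂M̃` -/
  H : Fin c → Subgroup G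
  /-- the cellular chain complexes of the components `N_a'` of `∂M̃` -/
  N : ∀ a, FCx (H a)
  /-- Poincare duality for the boundary components -/
  pd : ∀ a, (N a).IsPD
  /-- Lefschetz duality for `H^0`, `H^1`, `H^2` -/
  ld : IsLefschetz X N
  /-- Lefschetz duality `H^3(M; ℤ[G]) = H_1(M̃, ∂M̃) = ker (H_0(∂M̃) → H_0(M̃))` -/
  ev : (Fin (X.n (2 + 1)) → MonoidAlgebra ℤ G) →+ (Comp H →₀ ℤ)
  /-- it is an equivariant isomorphism -/
  top : IsTop X 2 w ev

end

end Pool.Agent.Q23.PP
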