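import Pool.Agent.Q23.PP.Core
import Pool.Agent.Q91.PP.TAU
import Pool.Agent.Q40.PP.Dual1
import Pool.Agent.Q139.PP.Dual2
import Pool.Agent.Q184.PP.Cone

/-!
# Project PP: the final theorem

Lemmas: helper91 (TAU), helper40 (DUAL1), helper139 (DUAL2), helper184 (PERM, CONE).
-/

set_option autoImplicit false

namespace Pool.Agent.Q23.PP

open Pool.Agent.H919R4.ZS (FinRes toRed)

theorem final {G : Type} [Group G] (X' : FinRes G) :
    (Nonempty (AsphericalFour G) → ∃ i, Nontrivial (X'.homology (toRed G) i)) ∧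
    ∀ (k : ℕ) (P : PDPair G k) (a : Fin P.c),
      (∃ i, Nontrivial ((P.Y a).homology (toRed (P.H a)) i)) →
        ∃ i, Nontrivial (X'.homology (toRed G) i) := by
  refine ⟨?_, ?_⟩
  · rintro ⟨M⟩
    exact fourCore Pool.Agent.Q91.PP.tau Pool.Agent.Q40.PP.Dual1.dual1 Pool.Agent.Q139.PP.dual2
      Pool.Agent.Q184.PP.perm Pool.Agent.Q184.PP.cone M X'
  · rintro k P a ⟨i, hi⟩
    exact pairCore Pool.Agent.Q91.PP.tau Pool.Agent.Q40.PP.Dual1.dual1 Pool.Agent.Q139.PP.dual2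
      Pool.Agent.Q184.PP.perm Pool.Agent.Q184.PP.cone P a i hi X'

end Pool.Agent.Q23.PP
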