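import Pool.Agent.Q23.PP.Stm
import Pool.Agent.Q169.PT.All
import Pool.Agent.H919R4.ZS.Final

/-!
# Project PP: the complexes of the boundary components, three-dimensional duality groups
-/

set_option autoImplicit false

open scoped Matrix

namespace Pool.Agent.Q23.PP

open Pool.Agent.H919R4.ZS (FinRes toRed RedC augm)
open Pool.Agent.TH38.ZT (ExAt exAt_iff)

noncomputable section

/-- Poincare duality groups of dimension three -/
theorem pd3 (K : Type) [Group K] (Z : FinRes K) (hlen : Z.len ≤ 3)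
    (h0 : Subsingleton (Z.cohomology 0)) (h3 : Nonempty (Z.cohomology 3 ≃+ ℤ)) :
    ∃ i, Nontrivial (Z.homology (toRed K) i) := by
  by_contra hcon
  have hs : ∀ i, Subsingleton (Z.homology (toRed K) i) := by
    intro i
    rw [← not_nontrivial_iff_subsingleton]
    exact fun h => hcon ⟨i, h⟩
  have hK : Infinite K := Pool.Agent.Q154.PT.Inf.inf K Z h0
  obtain ⟨w, ε, hO⟩ := Pool.Agent.Q154.PT.Ori.ori K Z hlen h3
  exact Pool.Agent.Q169.PT.pdc Pool.Agent.Q169.PT.TFr.tf K Z w ε hO hs

/-- low degrees -/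
theorem low {G : Type} [Group G] (X : FinRes G) (k : ℕ) (hk : k ≤ 2)
    (h : Nontrivial (X.cohomology k)) : ∃ i, Nontrivial (X.homology (toRed G) i) := by
  obtain ⟨i, -, hi⟩ := Pool.Agent.H919R4.ZS.main X (Or.inr ⟨k, hk, h⟩)
  exact ⟨i, hi⟩

/-- isomorphic quotients vanish at the same time -/
lemma QuotIso.sub {A A' : Type} [AddCommGroup A] [AddCommGroup A'] {Z B : AddSubgroup A}
    {Z' B' : AddSubgroup A'} (h : QuotIso Z B Z' B') : Z ≤ B ↔ Z' ≤ B' := by
  obtain ⟨f⟩ := h
  rw [← AddSubgroup.addSubgroupOf_eq_top, ← QuotientAddGroup.subsingleton_iff,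
    ← AddSubgroup.addSubgroupOf_eq_top, ← QuotientAddGroup.subsingleton_iff]
  exact f.toEquiv.subsingleton_congr

section fcx

variable {K : Type} [Group K] (Y : FCx K)

lemma hs_iff (i : ℕ) (h : Y.cyc i ≤ Y.bds i)
    (x : Fin (Y.n (i + 1)) → MonoidAlgebra ℤ K) : x ᵥ* Y.d i = 0 ↔ ∃ y, y ᵥ* Y.d (i + 1) = x := by
  constructor
  · intro hx
    exact h hx
  · rintro ⟨y, rfl⟩
    rw [Matrix.vecMul_vecMul, Y.d_mul_d, Matrix.vecMul_zero]

/-- an acyclic complex is a resolution -/
def toRes (h : ∀ i ≤ 2, Y.cyc i ≤ Y.bds i) : FinRes K where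
  len := 3
  n := Y.n
  d := Y.d
  aug := Y.aug
  n_eq_zero := Y.n_eq_zero
  surj := Y.surj
  exact_zero := Y.exact_zero
  exact_succ := by
    intro i x
    by_cases hi : i ≤ 2
    · exact hs_iff Y i (h i hi) x
    · have hn : Y.n (i + 1) = 0 := Y.n_eq_zero _ (by omega)
      have he : IsEmpty (Fin (Y.n (i + 1))) := by rw [hn]; infer_instance
      constructor
      · intro _
        exact ⟨0, funext fun j => he.elim j⟩
      · intro _
        have : x = 0 := funext fun j => he.elim j
        rw [this, Matrix.zero_vecMul]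

end fcx

end

end Pool.Agent.Q23.PP
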