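import Pool.Agent.Q23.PP.Defs

/-!
# Project PP: the statements of the jobs

JOBS: TAU, DUAL1, DUAL2, PERM, CONE. Every job proves `theorem <name> : S_<name>`.
-/

set_option autoImplicit false

open scoped Matrix

namespace Pool.Agent.Q23.PP

open Pool.Agent.H919R4.ZS (FinRes toRed RedC augm)
open Pool.Agent.TH38.CX (Res ExR PM Triv sumMap Bdd)
open Pool.Agent.TH38.ZT (ExAt)
open Pool.Agent.Q169.PT.Du (sg dm')

noncomputable section

/-- the kernel of the augmentation `ℤ[E] → ℤ` of a permutation module -/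
abbrev Delta (G : Type) [Group G] (E : Type) [MulAction G E] :
    Submodule (MonoidAlgebra ℤ G) (PM G E) := LinearMap.ker (sumMap (G := G) E)

/-- **JOB TAU** (`tau`). The anti-automorphism of `C*_r(G)`.

PROOF. `L2 G` is the Hilbert space, `valR : RedC G →+* (L2 G →L[ℂ] L2 G)` (Pool/Agent/H919R4/ZS/Act.lean)
the inclusion, injective (`Pool.Agent.Q111.FT.valR_inj`), with range `range = closure (Set.range
(integ G G))` (`valR_mem` in Pool/Agent/H919R4/AS/Ext.lean; the range is closed since `RedC G` is the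
closed subring `redCstar G`; `groupRing G` is generated by the operators `c • lreg g`). Let
`(U f)(h) = w(h) f(h)` (Pool/Agent/Q154/PT/Twist.lean: `U`, `norm_U`, `U_reg_U`; `U` is isometric,
`U * U = 1`). Put `T(x) = U ∘ adjoint(valR x) ∘ U`. The set of the operators `A` with
`U ∘ adjoint A ∘ U ∈ range valR` is closed (the map `A ↦ U (adjoint A) U` is continuous) and a subring
(`range valR` is a subring, the map reverses products, `U U = 1`), and it contains `c • λ(g)`, since
`U (adjoint (c λ(g))) U = conj c • U λ(g⁻¹) U = conj c • w(g) • λ(g⁻¹)`. So it contains the image of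
`valR`, and `τ x` is the element with `valR (τ x) = U (adjoint (valR x)) U`. On `toRed G a`: additive,
and for `a = single g r` both sides are `r w(g) λ(g⁻¹)` (`sg_single`, `L_single`, `coe_toRed`). -/
def S_tau : Prop :=
  ∀ (G : Type) [Group G] (w : G →* ℤˣ), ∃ τ : RedC G →+ RedC G,
    (∀ x y, τ (x * y) = τ y * τ x) ∧ τ 1 = 1 ∧
      ∀ a : MonoidAlgebra ℤ G, τ (toRed G a) = toRed G (sg w a)

/-- `R` is the dual of the resolution `X` of length at most `k + 1`, read backwards: the modules of
`R` in degree `i` and of `X` in degree `l` have the same basis if `l + i = k + 1`, and the matrix of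
the differential of `R` is the dual matrix `dm'` of that of `X` (Pool/Agent/Q169/PT/Dual.lean). -/
structure IsDualOf {G : Type} [Group G] (X : FinRes G) (k : ℕ) (w : G →* ℤˣ) {M : Type}
    [AddCommGroup M] [Module (MonoidAlgebra ℤ G) M] (R : Res G M)
    (q : ∀ i l : ℕ, l + i = k + 1 → (R.ι i ≃ Fin (X.n l))) : Prop where
  /-- nothing beyond degree `k + 1` -/
  empty : ∀ i, k + 1 < i → IsEmpty (R.ι i)
  /-- the differentials -/
  d : ∀ (i l : ℕ) (h : l + i = k), R.d i =
    (dm' w (X.d l)).submatrix (q (i + 1) l (by omega)) (q i (l + 1) (by omega))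

/-- **JOB DUAL1** (`dual1`). The dual resolution, compare Pool/Agent/Q169/PT/Dual.lean
(`dualRes`, there `k = 2` and `ℤ` in place of `Delta G E`), whose lemmas `dm'`, `sv`, `vecMul_dm'`,
`iff_dual`, `of_coh`, `coh_iff`, `case2` can be used (everything there is over `Fin _`).

PROOF. `R.ι i = Fin (if i ≤ k + 1 then X.n (k + 1 - i) else 0)`, `q i l h` is `finCongr` of the
equality of the numbers. `R.d i = (dm' w (X.d (k - i))).submatrix (q ..) (q ..)` for `i ≤ k`, and
`R.d i = 0` for `i > k` (`if h : i ≤ k then .. else 0`). `R.aug j = ⟨ev (Pi.single j' 1), _⟩`,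
`j' = q 0 (k + 1) _ j`, in `Delta G E` by `IsTop.range` (`sumMap` is the sum of the coefficients).
With `sv` as in Dual.lean, `∑ j, x j • R.aug j = ev (sv w x)`: for `x j = single g r` use
`IsTop.smul` with `g⁻¹` in place of `g` and `pm_single_smul`; `w(g) w(g) = 1` (`w_sq`), compare
`eps_dual` in Dual.lean. So the image of the augmentation is the image of `ev`, that is `Delta G E`
(`IsTop.range`); `exact_zero` is `IsTop.ker` as in Dual.lean; `exact_succ` in degree `i + 1 ≤ k + 1`
follows from `Subsingleton (X.cohomology (k - i))` (`iff_dual` and `coh_iff` for `k - i ≥ 1`,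
`case2` for `k - i = 0`), for larger `i` everything is zero. (Prove first the statement for vectors
over `Fin (X.n _)` and transport it along `q`; `Matrix.submatrix_vecMul_equiv`.) -/
def S_dual1 : Prop :=
  ∀ (G : Type) [Group G] (X : FinRes G) (k : ℕ), (∀ i, k + 1 < i → X.n i = 0) →
    (∀ i ≤ k, Subsingleton (X.cohomology i)) → ∀ (w : G →* ℤˣ) (E : Type) [MulAction G E]
    (ev : (Fin (X.n (k + 1)) → MonoidAlgebra ℤ G) →+ (E →₀ ℤ)), IsTop X k w ev →
    ∃ (R : Res G (Delta G E)) (q : ∀ i l : ℕ, l + i = k + 1 → (R.ι i ≃ Fin (X.n l))),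
      IsDualOf X k w R q

/-- **JOB DUAL2** (`dual2`). The dual of an exact complex is exact.

PROOF. By `contraction'` of Pool/Agent/TH38/ZT/Gen.lean (`p = k + 1`) there are matrices `s i` with
`s 0 * (X.d 0).map φ = 1` and `(X.d i).map φ * s i + s (i + 1) * (X.d (i + 1)).map φ = 1` for `i ≤ k`.
Apply the additive map `M ↦ M* = (M.map τ)ᵀ`, which reverses products and maps `1` to `1` (as
`τ 1 = 1`, `τ 0 = 0`), and `((X.d i).map φ)* = (dm' w (X.d i)).map φ` by the property of `τ`
(`dm' w D j k = sg w (D k j)`). With `D i = (dm' w (X.d i)).map φ` and `t i = (s i)*`: `D 0 * t 0 = 1`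
and `t i * D i + D (i + 1) * t (i + 1) = 1` for `i ≤ k`. `X.n (k + 2) = 0`, so the product
`D (k + 1) * t (k + 1)` (a sum over an empty type) is zero and `t k * D k = 1`. Exactness of `R` in
degree `0`: `x = (x ᵥ* t k) ᵥ* D k`. In degree `i`, `1 ≤ i ≤ k`, `l + i = k`: if
`x ᵥ* D (l + 1) = 0` then `x = (x ᵥ* t l) ᵥ* D l`. In degree `k + 1`: `x ᵥ* D 0 = 0` gives
`x = x ᵥ* (D 0 * t 0) = 0`. For larger degrees the modules are zero. (The bases are renamed by `q`;
`Matrix.submatrix_vecMul_equiv`.) -/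
def S_dual2 : Prop :=
  ∀ (G : Type) [Group G] (X : FinRes G) (k : ℕ), (∀ i, k + 1 < i → X.n i = 0) →
    ∀ (w : G →* ℤˣ) (M : Type) [AddCommGroup M] [Module (MonoidAlgebra ℤ G) M] (R : Res G M)
      (q : ∀ i l : ℕ, l + i = k + 1 → (R.ι i ≃ Fin (X.n l))), IsDualOf X k w R q →
      ∀ (S : Type) [Ring S] (φ : MonoidAlgebra ℤ G →+* S) (τ : S →+ S),
        (∀ x y, τ (x * y) = τ y * τ x) → τ 1 = 1 → (∀ a, τ (φ a) = φ (sg w a)) →
        (∀ i, ExAt X φ i) → ∀ i, ExR R φ i

/-- **JOB PERM** (`perm`). The permutation module `⨁_a ℤ[G ⧸ H a]`.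

PROOF. Use `exists_perm_res` (Pool/Agent/TH38/CX/Perm.lean) with `rep a = ⟨a, (1 : G ⧸ H a)⟩`
(`QuotientGroup.mk 1`). `hrep`: `⟨a, g H a⟩ = g • ⟨a, H a⟩` (`Sigma.smul_mk`), and the action does not
change the first component. The stabiliser of `rep a` is `H a` (`MulAction.Quotient.smul_mk`,
`QuotientGroup.eq`), an equality of subgroups `h : stabilizer G (rep a) = H a`; transport `Y a` along
it (`h ▸ Y a`, or `cast`), with the lemma (by `subst`): for `h : K = K'` and `Z : FinRes K'`,
`ExAt (h ▸ Z) (toRed K) i ↔ ExAt Z (toRed K') i`. If `ExR R (toRed G) i` for all `i` then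
`ExAt (X a) ((toRed G).comp (incl _)) i`, hence `ExAt (X a) (toRed _) i` by `ex_small`
(Pool/Agent/TH38/CX/Main.lean). -/
def S_perm : Prop :=
  ∀ (G : Type) [Group G] (c : ℕ) (H : Fin c → Subgroup G) (Y : ∀ a, FinRes (H a)),
    ∃ R : Res G (PM G (Comp H)), Bdd R ∧
      ((∀ i, ExR R (toRed G) i) → ∀ a i, ExAt (Y a) (toRed (H a)) i)

/-- **JOB CONE** (`cone`). Two out of three.

PROOF. `f = (Delta G E).subtype`, `g = sumMap E` (surjective as in `main_res` in
Pool/Agent/TH38/CX/Main.lean, with an element of `E`), chain map `F` from `exists_chain R' R f`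
(Cone.lean), `C = cone R' R f g hf hg hfg F hF0 hF`, a resolution of `Triv G`, bounded (as in `step`
in Main.lean). `ExR C φ i` for all `i`: `toFin C L hL` is a `FinRes G`, `ex_indep X (toFin C L hL) φ i`
and `exR_of_toFin` (Syz.lean), as at the end of Main.lean. Then `les2` (Cone.lean) gives
`ExR R φ i`. -/
def S_cone : Prop :=
  ∀ (G : Type) [Group G] (X : FinRes G) (E : Type) [MulAction G E] [Nonempty E]
    (R' : Res G (Delta G E)) (R : Res G (PM G E)), Bdd R' → Bdd R →
    ∀ (S : Type) [Ring S] (φ : MonoidAlgebra ℤ G →+* S), (∀ i, ExAt X φ i) →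
      (∀ i, ExR R' φ i) → ∀ i, ExR R φ i

end

end Pool.Agent.Q23.PP
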